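import Pool.Agent.H508R3.AT.Defs

/-!
Statements of the tasks of the project 508-AT (MP_b6e843_mp: the Anderson model on antitrees has
singular spectrum when the sum of `1 / s_n` diverges).
-/

set_option autoImplicit false

namespace Pool.Agent.H508R3.AT

open MeasureTheory Filter Topology Set Matrix
open Pool.Agent.H695R3.AT
open Pool.Agent.H508R3.SC (M2 ns)

/-- what the spectral transform gives -/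
def HasW {X : Type} [NormedAddCommGroup X] [InnerProductSpace ℂ X] [CompleteSpace X]
    (H : X →L[ℂ] X) (ψ : X) (ν : Measure ℝ) : Prop :=
  ∃ W : X → ℝ → ℂ, (∀ χ, Measurable (W χ)) ∧
    (∀ χ, ∫⁻ x, ENNReal.ofReal (‖W χ x‖ ^ 2) ∂ν ≤ ENNReal.ofReal (‖χ‖ ^ 2)) ∧
    (∀ χ χ', ∀ᵐ x ∂ν, W (χ + χ') x = W χ x + W χ' x) ∧
    (∀ (c : ℂ) χ, ∀ᵐ x ∂ν, W (c • χ) x = c * W χ x) ∧
    (∀ᵐ x ∂ν, W ψ x = 1) ∧ (∀ χ, ∀ᵐ x ∂ν, W (H χ) x = (x : ℂ) * W χ x)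

/-- resampling is measure preserving -/
def T0 : Prop := ∀ (s : ℕ → ℕ) (Pv : Measure ℝ), IsProbabilityMeasure Pv → ∀ N : ℕ,
  MeasurePreserving (fun p : Om s × Om s => comb s N p.1 p.2)
    ((PP s Pv).prod (PP s Pv)) (PP s Pv)

/-- spectral transform -/
def T1 : Prop := ∀ (X : Type) [NormedAddCommGroup X] [InnerProductSpace ℂ X] [CompleteSpace X]
  (H : X →L[ℂ] X), IsSelfAdjoint H → ∀ (ψ : X) (ν : Measure ℝ), IsSpec H ψ ν → HasW H ψ ν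

/-- bounded columns in the mean on the absolutely continuous part -/
def T2a : Prop := ∀ (s : ℕ → ℕ), (∀ n, 0 < s n) → ∀ (lam : ℝ) (v : Om s) (H : L2 s →L[ℂ] L2 s),
  IsAnderson s lam v H → ∀ (ψ : L2 s) (ν : Measure ℝ), IsSpec H ψ ν → HasW H ψ ν →
  ¬ (ν ⟂ₘ volume) → ∃ w : ℝ → ENNReal, Measurable w ∧ (¬ w =ᵐ[volume] 0) ∧
    ∀ n, ∫⁻ E, w E * ENNReal.ofReal (col s lam v E n) ≤ 2

/-- density points -/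
def T2b : Prop := ∀ (w : ℝ → ENNReal), Measurable w → (¬ w =ᵐ[volume] 0) →
  ∀ (c : ℕ → ℝ → ℝ), (∀ n, Measurable (c n)) → (∀ n E, 0 ≤ c n E) →
  (∀ n, ∫⁻ E, w E * ENNReal.ofReal (c n E) ≤ 2) → ∀ δ : ℝ, 0 < δ →
  ∃ a b : ℚ, (a : ℝ) < b ∧ ∃ R : ℕ, ∀ n,
    volume {E | E ∈ Icc (a : ℝ) b ∧ (R : ℝ) < c n E} ≤ ENNReal.ofReal (δ * (b - a))

/-- zero-one step -/
def T3 : Prop := ∀ (s : ℕ → ℕ) (Pv : Measure ℝ), IsProbabilityMeasure Pv → ∀ B : Set (Om s),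
  MeasurableSet B → PP s Pv B ≠ 0 → ∀ ε : ℝ, 0 < ε →
  ∃ (N : ℕ) (g : Om s), PP s Pv {v | comb s N g v ∉ B} ≤ ENNReal.ofReal ε

/-- two histories -/
def T4 : Prop := ∀ (s : ℕ → ℕ), (∀ n, 0 < s n) → ∀ (Pv : Measure ℝ), GoodLaw Pv →
  ∀ B : Set (Om s), MeasurableSet B → PP s Pv B ≠ 0 → ∀ ε : ℝ, 0 < ε →
  ∃ (N : ℕ) (g g' : Om s), (∀ x : Vtx s, x.1 < N → g x = g' x) ∧
    (∑ i : Fin (s N), g ⟨N, i⟩ ≠ ∑ i : Fin (s N), g' ⟨N, i⟩) ∧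
    PP s Pv {v | comb s (N + 1) g v ∉ B} ≤ ENNReal.ofReal ε ∧
    PP s Pv {v | comb s (N + 1) g' v ∉ B} ≤ ENNReal.ofReal ε

/-- two histories give independent columns at almost every energy -/
def T5 : Prop := ∀ (s : ℕ → ℕ), (∀ n, 0 < s n) → ∀ (lam : ℝ), lam ≠ 0 → ∀ (N : ℕ) (g g' : Om s),
  (∀ x : Vtx s, x.1 < N → g x = g' x) →
  (∑ i : Fin (s N), g ⟨N, i⟩ ≠ ∑ i : Fin (s N), g' ⟨N, i⟩) →
  ∀ᵐ E : ℝ, (TT s lam g E 0 (N + 1)) 0 0 * (TT s lam g' E 0 (N + 1)) 1 0 -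
    (TT s lam g E 0 (N + 1)) 1 0 * (TT s lam g' E 0 (N + 1)) 0 0 ≠ 0

/-- the transfer matrices themselves are bounded with positive probability -/
def T6 : Prop := ∀ (s : ℕ → ℕ), (∀ n, 0 < s n) → ∀ (lam : ℝ), 0 < lam → ∀ (Pv : Measure ℝ),
  GoodLaw Pv → ∀ (a b : ℝ), a < b → ∀ R : ℝ, 0 ≤ R → PP s Pv (Bset s lam a b R (1 / 16)) ≠ 0 →
  ∃ (N : ℕ) (K : ℝ), 0 < K ∧ ∀ k : ℕ, ENNReal.ofReal ((b - a) / 4) ≤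
    ((PP s Pv).prod volume) {p : Om s × ℝ | p.2 ∈ Icc a b ∧ ns (TT s lam p.1 p.2 N k) ≤ K}

/-- shears move bounded densities -/
def T7 : Prop := ∀ (β R : ℝ), 0 < β → 0 < R → ∃ d T : ℝ, 0 < d ∧ 0 < T ∧
  ∀ g : ℝ × ℝ → ℝ, Measurable g → (∀ z, 0 ≤ g z ∧ g z ≤ 1) →
  ∫⁻ z, ENNReal.ofReal (g z) ≤ ENNReal.ofReal 4 →
  ENNReal.ofReal β ≤ ∫⁻ z in {z : ℝ × ℝ | z.1 ^ 2 + z.2 ^ 2 ≤ R}, ENNReal.ofReal (g z) →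
  ∀ t : ℝ, d * sq T t ≤ ∫ z : ℝ × ℝ, (g z - g (z.1, z.2 + t * z.1)) ^ 2

/-- the density of the image of the unit disc under the random transfer matrix -/
noncomputable def ff (s : ℕ → ℕ) (lam : ℝ) (Pv : Measure ℝ) (E : ℝ) (N k : ℕ) (z : ℝ × ℝ) : ℝ :=
  (PP s Pv).real {v | ((TT s lam v E N k) 1 1 * z.1 - (TT s lam v E N k) 0 1 * z.2) ^ 2 +
    ((TT s lam v E N k) 0 0 * z.2 - (TT s lam v E N k) 1 0 * z.1) ^ 2 ≤ 1}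

/-- basic properties of the density -/
def T8a : Prop := ∀ (s : ℕ → ℕ) (lam : ℝ) (Pv : Measure ℝ), IsProbabilityMeasure Pv →
  ∀ (N k : ℕ), Measurable (fun p : ℝ × (ℝ × ℝ) => ff s lam Pv p.1 N k p.2) ∧
  ∀ E : ℝ, (∀ z, 0 ≤ ff s lam Pv E N k z ∧ ff s lam Pv E N k z ≤ 1) ∧
    ∫⁻ z, ENNReal.ofReal (ff s lam Pv E N k z) ≤ ENNReal.ofReal 4 ∧
    ∀ K : ℝ, 0 < K →
      ENNReal.ofReal (3 * (PP s Pv).real {v | ns (TT s lam v E N k) ≤ K}) ≤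
        ∫⁻ z in {z : ℝ × ℝ | z.1 ^ 2 + z.2 ^ 2 ≤ K}, ENNReal.ofReal (ff s lam Pv E N k z)

/-- the energy identity -/
def T8b : Prop := ∀ (s : ℕ → ℕ) (lam : ℝ) (Pv : Measure ℝ), IsProbabilityMeasure Pv →
  ∀ (E : ℝ) (N k : ℕ),
  (1 / 2) * ∫ p : Om s × Om s, (∫ z : ℝ × ℝ, (ff s lam Pv E N k (z.1, -z.2) -
      ff s lam Pv E N k (z.1, -(z.2 + ((YY s lam p.1 (N + k) E)⁻¹ -
        (YY s lam p.2 (N + k) E)⁻¹) * z.1))) ^ 2) ∂((PP s Pv).prod (PP s Pv)) ≤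
    (∫ z : ℝ × ℝ, ff s lam Pv E N k z ^ 2) - ∫ z : ℝ × ℝ, ff s lam Pv E N (k + 1) z ^ 2

/-- anticoncentration of the shell averages -/
def T9a : Prop := ∀ (Pv : Measure ℝ), GoodLaw Pv → ∀ (lam a b : ℝ), 0 < lam →
  ∃ c₂ c₃ : ℝ, 0 < c₂ ∧ 0 < c₃ ∧ ∀ (s : ℕ → ℕ), (∀ n, 0 < s n) → ∀ (n : ℕ) (E : ℝ), E ∈ Icc a b →
    ENNReal.ofReal c₃ ≤ ((PP s Pv).prod (PP s Pv))
      {p | c₂ / √(s n : ℝ) ≤ |YY s lam p.1 n E - YY s lam p.2 n E|}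

/-- weak type bound (Boole) -/
def T10 : Prop := ∀ a b : ℝ, ∃ C : ℝ, 0 < C ∧ ∀ (m : ℕ), 0 < m → ∀ (x : Fin m → ℝ) (t : ℝ), 0 < t →
  volume {E | E ∈ Icc a b ∧ t ≤ |(∑ i, (E - x i)⁻¹) / m|} ≤ ENNReal.ofReal (C / t)

/-- lower bound for the noise -/
def T9 : Prop := ∀ (Pv : Measure ℝ), GoodLaw Pv → ∀ (lam a b T η : ℝ), 0 < lam → a < b → 0 < T →
  0 < η → ∃ c : ℝ, 0 < c ∧ ∀ (s : ℕ → ℕ), (∀ n, 0 < s n) → ∀ (n : ℕ) (G : Set ℝ),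
    MeasurableSet G → G ⊆ Icc a b → ENNReal.ofReal η ≤ volume G →
    ENNReal.ofReal (c / s n) ≤ ∫⁻ E in G, ENNReal.ofReal (∫ p : Om s × Om s,
      sq T ((YY s lam p.1 n E)⁻¹ - (YY s lam p.2 n E)⁻¹) ∂((PP s Pv).prod (PP s Pv)))

/-- **Goal.** -/
def Goal : Prop := ∀ (Pv : Measure ℝ), GoodLaw Pv → ∀ (s : ℕ → ℕ), (∀ n, 0 < s n) →
  ¬ Summable (fun n => 1 / (s n : ℝ)) → ∀ lam : ℝ, 0 < lam →
  ∀ᵐ v ∂(PP s Pv), ∀ H : L2 s →L[ℂ] L2 s, IsAnderson s lam v H →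
    ∀ (ψ : L2 s) (ν : Measure ℝ), IsSpec H ψ ν → ν ⟂ₘ volume

end Pool.Agent.H508R3.AT
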