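import Pool.Agent.H508R3.AT.Stmts

set_option autoImplicit false

namespace Pool.Agent.H508R3.AT

open MeasureTheory Filter Topology Set Matrix
open Pool.Agent.H695R3.AT
open Pool.Agent.H508R3.SC (M2 ns)

variable {s : ℕ → ℕ}

lemma sq_nonneg' (T t : ℝ) : 0 ≤ sq T t := by unfold sq; positivity

lemma sq_le_one {T : ℝ} (hT : 0 < T) (t : ℝ) : sq T t ≤ 1 := by
  unfold sq
  have h0 : 0 ≤ |t| := abs_nonneg t
  have h1 : |t| / (T + |t|) ≤ 1 := by
    rw [div_le_one (by positivity)]; linarith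
  have h2 : 0 ≤ |t| / (T + |t|) := by positivity
  nlinarith

lemma sq_meas (T : ℝ) : Measurable (sq T) := by
  unfold sq
  fun_prop

lemma shear_mp (t : ℝ) :
    MeasurePreserving (fun z : ℝ × ℝ => (z.1, z.2 + t * z.1)) volume volume := by
  have h : MeasurePreserving (fun z : ℝ × ℝ => (id z.1, z.2 + t * z.1))
      ((volume : Measure ℝ).prod volume) ((volume : Measure ℝ).prod volume) := by
    refine (MeasurePreserving.id (volume : Measure ℝ)).skew_product
      (g := fun x y => y + t * x) ?_ ?_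
    · fun_prop
    · exact Eventually.of_forall fun x => (measurePreserving_add_right volume (t * x)).map_eq
  exact h

lemma refl_mp : MeasurePreserving (fun z : ℝ × ℝ => (z.1, -z.2)) volume volume := by
  have h : MeasurePreserving (fun z : ℝ × ℝ => (id z.1, -z.2))
      ((volume : Measure ℝ).prod volume) ((volume : Measure ℝ).prod volume) :=
    (MeasurePreserving.id (volume : Measure ℝ)).prod (Measure.measurePreserving_neg volume)
  exact h

lemma int_of {g : ℝ × ℝ → ℝ} (hm : Measurable g) (h01 : ∀ z, 0 ≤ g z ∧ g z ≤ 1)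
    (h4 : ∫⁻ z, ENNReal.ofReal (g z) ≤ ENNReal.ofReal 4) : Integrable g := by
  refine ⟨hm.aestronglyMeasurable, ?_⟩
  rw [hasFiniteIntegral_iff_ofReal (Eventually.of_forall fun z => (h01 z).1)]
  exact h4.trans_lt ENNReal.ofReal_lt_top

lemma int_le {g : ℝ × ℝ → ℝ} (hm : Measurable g) (h01 : ∀ z, 0 ≤ g z ∧ g z ≤ 1)
    (h4 : ∫⁻ z, ENNReal.ofReal (g z) ≤ ENNReal.ofReal 4) : ∫ z, g z ≤ 4 := by
  have h := ofReal_integral_eq_lintegral_ofReal (int_of hm h01 h4)
    (Eventually.of_forall fun z => (h01 z).1)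
  rw [← h] at h4
  exact (ENNReal.ofReal_le_ofReal_iff (by norm_num)).mp h4

lemma diff_bound {g : ℝ × ℝ → ℝ} (hm : Measurable g) (h01 : ∀ z, 0 ≤ g z ∧ g z ≤ 1)
    (h4 : ∫⁻ z, ENNReal.ofReal (g z) ≤ ENNReal.ofReal 4) (t : ℝ) :
    ∫ z : ℝ × ℝ, (g z - g (z.1, z.2 + t * z.1)) ^ 2 ≤ 8 := by
  have hi := int_of hm h01 h4
  have hi2 : Integrable (fun z : ℝ × ℝ => g (z.1, z.2 + t * z.1)) :=
    (shear_mp t).integrable_comp_of_integrable hi
  have h8 : ∫ z : ℝ × ℝ, g (z.1, z.2 + t * z.1) = ∫ z, g z := by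
    have h := integral_map (μ := (volume : Measure (ℝ × ℝ))) (shear_mp t).measurable.aemeasurable
      (f := g) hm.aestronglyMeasurable
    rw [(shear_mp t).map_eq] at h
    exact h.symm
  calc ∫ z : ℝ × ℝ, (g z - g (z.1, z.2 + t * z.1)) ^ 2
      ≤ ∫ z : ℝ × ℝ, (g z + g (z.1, z.2 + t * z.1)) := by
        apply integral_mono_of_nonneg
        · exact Eventually.of_forall fun z => by positivity
        · exact hi.add hi2
        · exact Eventually.of_forall fun z => by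
            have h1 := h01 z
            have h2 := h01 (z.1, z.2 + t * z.1)
            simp only
            nlinarith [h1.1, h1.2, h2.1, h2.2, mul_nonneg h1.1 h2.1,
              mul_nonneg h1.1 (sub_nonneg.mpr h1.2), mul_nonneg h2.1 (sub_nonneg.mpr h2.2)]
    _ = (∫ z, g z) + ∫ z : ℝ × ℝ, g (z.1, z.2 + t * z.1) := integral_add hi hi2
    _ ≤ 8 := by rw [h8]; linarith [int_le hm h01 h4]

/-- mass of the density -/
noncomputable def bk (s : ℕ → ℕ) (lam : ℝ) (Pv : Measure ℝ) (N k : ℕ) (K E : ℝ) : ℝ :=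
  (PP s Pv).real {v | ns (TT s lam v E N k) ≤ K}

lemma ns_meas (lam : ℝ) (N k : ℕ) :
    Measurable (fun p : Om s × ℝ => ns (TT s lam p.1 p.2 N k)) := by
  unfold ns
  have h00 := TT_meas (s := s) lam N k 0 0
  have h01 := TT_meas (s := s) lam N k 0 1
  have h10 := TT_meas (s := s) lam N k 1 0
  have h11 := TT_meas (s := s) lam N k 1 1
  fun_prop

lemma nsset_meas (lam : ℝ) (N k : ℕ) (K : ℝ) :
    MeasurableSet {p : Om s × ℝ | ns (TT s lam p.1 p.2 N k) ≤ K} :=
  measurableSet_le (ns_meas lam N k) measurable_const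

lemma bk_meas {Pv : Measure ℝ} [IsProbabilityMeasure Pv] (lam : ℝ) (N k : ℕ) (K : ℝ) :
    Measurable (bk s lam Pv N k K) := by
  unfold bk Measure.real
  exact (measurable_measure_prodMk_right (nsset_meas (s := s) lam N k K)).ennreal_toReal

/-- the good energies -/
def Gk (s : ℕ → ℕ) (lam : ℝ) (Pv : Measure ℝ) (N k : ℕ) (K a b : ℝ) : Set ℝ :=
  {E | E ∈ Icc a b ∧ 1 / 8 ≤ bk s lam Pv N k K E}

lemma Gk_meas {Pv : Measure ℝ} [IsProbabilityMeasure Pv] (lam : ℝ) (N k : ℕ) (K a b : ℝ) :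
    MeasurableSet (Gk s lam Pv N k K a b) :=
  measurableSet_Icc.inter (measurableSet_le measurable_const (bk_meas lam N k K))

lemma Gk_vol {Pv : Measure ℝ} [IsProbabilityMeasure Pv] (lam : ℝ) (N k : ℕ) (K a b : ℝ)
    (hab : a < b) (h : ENNReal.ofReal ((b - a) / 4) ≤
      ((PP s Pv).prod volume) {p : Om s × ℝ | p.2 ∈ Icc a b ∧ ns (TT s lam p.1 p.2 N k) ≤ K}) :
    ENNReal.ofReal ((b - a) / 8) ≤ volume (Gk s lam Pv N k K a b) := by
  have hm : MeasurableSet {p : Om s × ℝ | p.2 ∈ Icc a b ∧ ns (TT s lam p.1 p.2 N k) ≤ K} :=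
    (measurable_snd measurableSet_Icc).inter (nsset_meas lam N k K)
  rw [Measure.prod_apply_symm hm] at h
  have h1 : ∀ E : ℝ, (PP s Pv) ((fun v => (v, E)) ⁻¹'
      {p : Om s × ℝ | p.2 ∈ Icc a b ∧ ns (TT s lam p.1 p.2 N k) ≤ K}) ≤
      (Gk s lam Pv N k K a b).indicator 1 E + (Icc a b).indicator (fun _ => ENNReal.ofReal (1 / 8)) E := by
    intro E
    by_cases hE : E ∈ Icc a b
    · rw [indicator_of_mem hE]
      by_cases hG : E ∈ Gk s lam Pv N k K a b
      · rw [indicator_of_mem hG]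
        exact prob_le_one.trans le_self_add
      · rw [indicator_of_notMem hG, zero_add]
        have h2 : ¬ (1 / 8 ≤ bk s lam Pv N k K E) := fun h => hG ⟨hE, h⟩
        have h3 : bk s lam Pv N k K E ≤ 1 / 8 := (not_le.mp h2).le
        have h4 : ((fun v : Om s => (v, E)) ⁻¹'
            {p : Om s × ℝ | p.2 ∈ Icc a b ∧ ns (TT s lam p.1 p.2 N k) ≤ K}) ⊆
            {v | ns (TT s lam v E N k) ≤ K} := fun v hv => hv.2
        refine (measure_mono h4).trans ?_
        rw [← ENNReal.ofReal_toReal (measure_ne_top (PP s Pv) _)]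
        exact ENNReal.ofReal_le_ofReal h3
    · have : ((fun v : Om s => (v, E)) ⁻¹'
            {p : Om s × ℝ | p.2 ∈ Icc a b ∧ ns (TT s lam p.1 p.2 N k) ≤ K}) = ∅ := by
        ext v
        simp only [mem_preimage, mem_ofPred_eq, mem_empty_iff_false, iff_false, not_and]
        exact fun h => absurd h hE
      rw [this]
      simp
  have h2 := h.trans (lintegral_mono h1)
  rw [lintegral_add_left (measurable_one.indicator (Gk_meas lam N k K a b)),
    lintegral_indicator_one (Gk_meas lam N k K a b), lintegral_indicator_const measurableSet_Icc,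
    Real.volume_Icc, ← ENNReal.ofReal_mul (by norm_num)] at h2
  have h3 : ENNReal.ofReal ((b - a) / 4) = ENNReal.ofReal ((b - a) / 8) +
      ENNReal.ofReal (1 / 8 * (b - a)) := by
    rw [← ENNReal.ofReal_add (by linarith) (by linarith)]
    congr 1
    ring
  rw [h3] at h2
  exact (ENNReal.add_le_add_iff_right ENNReal.ofReal_ne_top).mp h2

/-- the energy -/
noncomputable def En (s : ℕ → ℕ) (lam : ℝ) (Pv : Measure ℝ) (N k : ℕ) (E : ℝ) : ℝ :=
  ∫ z : ℝ × ℝ, ff s lam Pv E N k z ^ 2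

/-- the noise -/
noncomputable def Ik (s : ℕ → ℕ) (lam : ℝ) (Pv : Measure ℝ) (T : ℝ) (n : ℕ) (E : ℝ) : ℝ :=
  ∫ p : Om s × Om s, sq T ((YY s lam p.1 n E)⁻¹ - (YY s lam p.2 n E)⁻¹)
    ∂((PP s Pv).prod (PP s Pv))

lemma Ik_nonneg (lam : ℝ) (Pv : Measure ℝ) (T : ℝ) (n : ℕ) (E : ℝ) : 0 ≤ Ik s lam Pv T n E :=
  integral_nonneg fun _ => sq_nonneg' _ _

lemma YY_meas_v (lam : ℝ) (n : ℕ) (E : ℝ) : Measurable (fun v : Om s => YY s lam v n E) :=
  (YY_meas lam n).comp measurable_prodMk_right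


lemma refl_mass {f : ℝ × ℝ → ℝ} (hfm : Measurable f) (K : ℝ) :
    ∫⁻ z in {z : ℝ × ℝ | z.1 ^ 2 + z.2 ^ 2 ≤ K}, ENNReal.ofReal (f (z.1, -z.2)) =
      ∫⁻ z in {z : ℝ × ℝ | z.1 ^ 2 + z.2 ^ 2 ≤ K}, ENNReal.ofReal (f z) := by
  have hSm : MeasurableSet {z : ℝ × ℝ | z.1 ^ 2 + z.2 ^ 2 ≤ K} :=
    measurableSet_le (by fun_prop) measurable_const
  rw [← lintegral_indicator hSm, ← lintegral_indicator hSm]
  have h2 := refl_mp.lintegral_comp (f := {z : ℝ × ℝ | z.1 ^ 2 + z.2 ^ 2 ≤ K}.indicator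
    (fun z => ENNReal.ofReal (f z))) (hfm.ennreal_ofReal.indicator hSm)
  rw [← h2]
  apply lintegral_congr
  intro z
  by_cases hz : z.1 ^ 2 + z.2 ^ 2 ≤ K
  · rw [indicator_of_mem (show (z.1, -z.2) ∈ {z : ℝ × ℝ | z.1 ^ 2 + z.2 ^ 2 ≤ K} by
      simpa using hz), indicator_of_mem (show z ∈ {z : ℝ × ℝ | z.1 ^ 2 + z.2 ^ 2 ≤ K} from hz)]
  · rw [indicator_of_notMem (show (z.1, -z.2) ∉ {z : ℝ × ℝ | z.1 ^ 2 + z.2 ^ 2 ≤ K} by
      simpa using hz), indicator_of_notMem (show z ∉ {z : ℝ × ℝ | z.1 ^ 2 + z.2 ^ 2 ≤ K} from hz)]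

lemma F_integrable {Ω : Type} [MeasurableSpace Ω] (μ : Measure Ω) [IsProbabilityMeasure μ]
    (τ : Ω → ℝ) (hτ : Measurable τ) {g : ℝ × ℝ → ℝ} (hm : Measurable g)
    (h01 : ∀ z, 0 ≤ g z ∧ g z ≤ 1)
    (h4 : ∫⁻ z, ENNReal.ofReal (g z) ≤ ENNReal.ofReal 4) :
    Integrable (fun p : Ω => ∫ z : ℝ × ℝ, (g z - g (z.1, z.2 + τ p * z.1)) ^ 2) μ := by
  have h1 : Measurable (fun q : Ω × (ℝ × ℝ) =>
      (g q.2 - g (q.2.1, q.2.2 + τ q.1 * q.2.1)) ^ 2) := by
    have h4 : Measurable (fun q : Ω × (ℝ × ℝ) => (q.2.1, q.2.2 + τ q.1 * q.2.1)) := by fun_prop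
    exact ((hm.comp measurable_snd).sub (hm.comp h4)).pow_const 2
  have h2 : AEStronglyMeasurable
      (fun p : Ω => ∫ z : ℝ × ℝ, (g z - g (z.1, z.2 + τ p * z.1)) ^ 2) μ :=
    (h1.stronglyMeasurable.integral_prod_right).aestronglyMeasurable
  refine Integrable.of_bound h2 8 (Eventually.of_forall fun p => ?_)
  rw [Real.norm_eq_abs, abs_of_nonneg (integral_nonneg fun z => by positivity)]
  exact diff_bound hm h01 h4 _

lemma abs_step {d T K β : ℝ} (hd : 0 < d)
    (hsh : ∀ g : ℝ × ℝ → ℝ, Measurable g → (∀ z, 0 ≤ g z ∧ g z ≤ 1) →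
      ∫⁻ z, ENNReal.ofReal (g z) ≤ ENNReal.ofReal 4 →
      ENNReal.ofReal β ≤ ∫⁻ z in {z : ℝ × ℝ | z.1 ^ 2 + z.2 ^ 2 ≤ K}, ENNReal.ofReal (g z) →
      ∀ t : ℝ, d * sq T t ≤ ∫ z : ℝ × ℝ, (g z - g (z.1, z.2 + t * z.1)) ^ 2)
    {Ω : Type} [MeasurableSpace Ω] (μ : Measure Ω) [IsProbabilityMeasure μ]
    (τ : Ω → ℝ) (hτ : Measurable τ) {f : ℝ × ℝ → ℝ} (hfm : Measurable f)
    (h01 : ∀ z, 0 ≤ f z ∧ f z ≤ 1)
    (h4 : ∫⁻ z, ENNReal.ofReal (f z) ≤ ENNReal.ofReal 4)
    (hβ : ENNReal.ofReal β ≤ ∫⁻ z in {z : ℝ × ℝ | z.1 ^ 2 + z.2 ^ 2 ≤ K}, ENNReal.ofReal (f z)) :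
    d * ∫ p, sq T (τ p) ∂μ ≤ ∫ p : Ω, (∫ z : ℝ × ℝ, (f (z.1, -z.2) -
      f (z.1, -(z.2 + τ p * z.1))) ^ 2) ∂μ := by
  have hgm : Measurable (fun z : ℝ × ℝ => f (z.1, -z.2)) := hfm.comp refl_mp.measurable
  have hg01 : ∀ z : ℝ × ℝ, 0 ≤ f (z.1, -z.2) ∧ f (z.1, -z.2) ≤ 1 := fun z => h01 _
  have hg4 : ∫⁻ z : ℝ × ℝ, ENNReal.ofReal (f (z.1, -z.2)) ≤ ENNReal.ofReal 4 := by
    have := refl_mp.lintegral_comp (f := fun z => ENNReal.ofReal (f z)) hfm.ennreal_ofReal
    exact this.le.trans h4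
  have hgβ : ENNReal.ofReal β ≤ ∫⁻ z in {z : ℝ × ℝ | z.1 ^ 2 + z.2 ^ 2 ≤ K},
      ENNReal.ofReal (f (z.1, -z.2)) := by
    rw [refl_mass hfm K]
    exact hβ
  have h2 := hsh (fun z => f (z.1, -z.2)) hgm hg01 hg4 hgβ
  have hFi := F_integrable μ τ hτ hgm hg01 hg4
  rw [← integral_const_mul]
  apply integral_mono_of_nonneg
  · exact Eventually.of_forall fun p => mul_nonneg hd.le (sq_nonneg' _ _)
  · exact hFi
  · exact Eventually.of_forall fun p => h2 _

lemma abs_meas {f : ℝ → ℝ × ℝ → ℝ} (h : Measurable (fun p : ℝ × (ℝ × ℝ) => f p.1 p.2)) (E : ℝ) :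
    Measurable (f E) := h.comp measurable_prodMk_left

lemma En_anti (h8b : T8b) (lam : ℝ) (Pv : Measure ℝ) (hPv : IsProbabilityMeasure Pv) (N k : ℕ)
    (E : ℝ) : En s lam Pv N (k + 1) E ≤ En s lam Pv N k E := by
  have hen := h8b s lam Pv hPv E N k
  have h0 : 0 ≤ ∫ p : Om s × Om s, (∫ z : ℝ × ℝ, (ff s lam Pv E N k (z.1, -z.2) -
      ff s lam Pv E N k (z.1, -(z.2 + ((YY s lam p.1 (N + k) E)⁻¹ -
        (YY s lam p.2 (N + k) E)⁻¹) * z.1))) ^ 2) ∂((PP s Pv).prod (PP s Pv)) :=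
    integral_nonneg fun p => integral_nonneg fun z => sq_nonneg _
  unfold En
  linarith

/-- one step of the dissipation -/
lemma step (h7 : T7) (h8a : T8a) (h8b : T8b) (K : ℝ) (hK : 0 < K) :
    ∃ d T : ℝ, 0 < d ∧ 0 < T ∧ ∀ (s : ℕ → ℕ) (lam : ℝ) (Pv : Measure ℝ),
      IsProbabilityMeasure Pv → ∀ (N k : ℕ) (a b E : ℝ), E ∈ Gk s lam Pv N k K a b →
        En s lam Pv N (k + 1) E + d * Ik s lam Pv T (N + k) E ≤ En s lam Pv N k E := by
  obtain ⟨d, T, hd, hT, hsh⟩ := h7 (3 / 8) K (by norm_num) hK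
  refine ⟨d / 2, T, by positivity, hT, ?_⟩
  intro s lam Pv hPv N k a b E hE
  obtain ⟨hffm, hff⟩ := h8a s lam Pv hPv N k
  obtain ⟨h01, h4, hmass⟩ := hff E
  have hen := h8b s lam Pv hPv E N k
  have hfm : Measurable (ff s lam Pv E N k) := abs_meas (f := fun E z => ff s lam Pv E N k z) hffm E
  have hτ : Measurable (fun p : Om s × Om s => (YY s lam p.1 (N + k) E)⁻¹ -
      (YY s lam p.2 (N + k) E)⁻¹) := by
    have hY := YY_meas_v (s := s) lam (N + k) E
    exact ((hY.comp measurable_fst).inv).sub ((hY.comp measurable_snd).inv)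
  have hβ : ENNReal.ofReal (3 / 8) ≤
      ∫⁻ z in {z : ℝ × ℝ | z.1 ^ 2 + z.2 ^ 2 ≤ K}, ENNReal.ofReal (ff s lam Pv E N k z) := by
    refine le_trans ?_ (hmass K hK)
    apply ENNReal.ofReal_le_ofReal
    have := hE.2
    unfold bk at this
    linarith
  have h1 := abs_step hd hsh ((PP s Pv).prod (PP s Pv)) (fun p : Om s × Om s =>
    (YY s lam p.1 (N + k) E)⁻¹ - (YY s lam p.2 (N + k) E)⁻¹) hτ hfm h01 h4 hβ
  have h2 := mul_le_mul_of_nonneg_left h1 (show (0 : ℝ) ≤ 1 / 2 by norm_num)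
  have h3 := h2.trans hen
  have h4 : d / 2 * Ik s lam Pv T (N + k) E = 1 / 2 * (d * Ik s lam Pv T (N + k) E) := by ring
  rw [h4]
  exact le_sub_iff_add_le'.mp h3

lemma En_nonneg (lam : ℝ) (Pv : Measure ℝ) (N k : ℕ) (E : ℝ) : 0 ≤ En s lam Pv N k E :=
  integral_nonneg fun _ => sq_nonneg _

lemma En_le (h8a : T8a) (lam : ℝ) (Pv : Measure ℝ) (hPv : IsProbabilityMeasure Pv) (N k : ℕ)
    (E : ℝ) : En s lam Pv N k E ≤ 4 := by
  obtain ⟨hffm, hff⟩ := h8a s lam Pv hPv N k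
  obtain ⟨h01, h4, -⟩ := hff E
  have hfm : Measurable (ff s lam Pv E N k) := abs_meas (f := fun E z => ff s lam Pv E N k z) hffm E
  refine le_trans ?_ (int_le hfm h01 h4)
  unfold En
  apply integral_mono_of_nonneg
  · exact Eventually.of_forall fun z => sq_nonneg _
  · exact int_of hfm h01 h4
  · exact Eventually.of_forall fun z => by
      have := h01 z
      simp only
      nlinarith [this.1, this.2]

/-- summation of the dissipation -/
lemma total (h7 : T7) (h8a : T8a) (h8b : T8b) (h9 : T9) (Pv : Measure ℝ) (hP : GoodLaw Pv)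
    (hs : ∀ n, 0 < s n) (lam : ℝ) (hlam : 0 < lam) (a b : ℝ) (hab : a < b) (N : ℕ) (K : ℝ)
    (hK : 0 < K) (hk : ∀ k : ℕ, ENNReal.ofReal ((b - a) / 4) ≤
      ((PP s Pv).prod volume) {p : Om s × ℝ | p.2 ∈ Icc a b ∧ ns (TT s lam p.1 p.2 N k) ≤ K}) :
    Summable (fun n => 1 / (s n : ℝ)) := by
  have hPv := hP.1
  obtain ⟨d, T, hd, hT, hstep⟩ := step h7 h8a h8b K hK
  obtain ⟨c, hc, hnoise⟩ := h9 Pv hP lam a b T ((b - a) / 8) hlam hab hT (by linarith)
  set A : ℕ → ENNReal := fun k => ∫⁻ E in Icc a b, ENNReal.ofReal (En s lam Pv N k E) with hA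
  have hrec : ∀ k, A (k + 1) + ENNReal.ofReal (d * (c / s (N + k))) ≤ A k := by
    intro k
    have h1 := hnoise s hs (N + k) (Gk s lam Pv N k K a b) (Gk_meas lam N k K a b)
      (fun E hE => hE.1) (Gk_vol lam N k K a b hab (hk k))
    have h2 : ENNReal.ofReal (d * (c / s (N + k))) ≤ ∫⁻ E in Icc a b,
        (Gk s lam Pv N k K a b).indicator
          (fun E => ENNReal.ofReal (d * Ik s lam Pv T (N + k) E)) E := by
      rw [ENNReal.ofReal_mul hd.le]
      calc ENNReal.ofReal d * ENNReal.ofReal (c / s (N + k))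
          ≤ ENNReal.ofReal d * ∫⁻ E in Gk s lam Pv N k K a b,
            ENNReal.ofReal (Ik s lam Pv T (N + k) E) := by
              gcongr
              exact h1
        _ = ∫⁻ E in Gk s lam Pv N k K a b, ENNReal.ofReal (d * Ik s lam Pv T (N + k) E) := by
            rw [← lintegral_const_mul' _ _ ENNReal.ofReal_ne_top]
            apply lintegral_congr
            intro E
            rw [ENNReal.ofReal_mul hd.le]
        _ = _ := by
            rw [← lintegral_indicator measurableSet_Icc, ← lintegral_indicator (Gk_meas lam N k K a b)]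
            apply lintegral_congr
            intro E
            by_cases hE : E ∈ Gk s lam Pv N k K a b
            · rw [indicator_of_mem hE, indicator_of_mem (show E ∈ Icc a b from hE.1),
                indicator_of_mem hE]
            · rw [indicator_of_notMem hE]
              by_cases hE2 : E ∈ Icc a b
              · rw [indicator_of_mem hE2, indicator_of_notMem hE]
              · rw [indicator_of_notMem hE2]
    calc A (k + 1) + ENNReal.ofReal (d * (c / s (N + k)))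
        ≤ A (k + 1) + ∫⁻ E in Icc a b, (Gk s lam Pv N k K a b).indicator
          (fun E => ENNReal.ofReal (d * Ik s lam Pv T (N + k) E)) E := by gcongr
      _ ≤ ∫⁻ E in Icc a b, (ENNReal.ofReal (En s lam Pv N (k + 1) E) +
          (Gk s lam Pv N k K a b).indicator
          (fun E => ENNReal.ofReal (d * Ik s lam Pv T (N + k) E)) E) := le_lintegral_add _ _
      _ ≤ A k := by
          apply lintegral_mono
          intro E
          by_cases hE : E ∈ Gk s lam Pv N k K a b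
          · simp only [indicator_of_mem hE]
            rw [← ENNReal.ofReal_add (En_nonneg _ _ _ _ _)
              (mul_nonneg hd.le (Ik_nonneg _ _ _ _ _))]
            exact ENNReal.ofReal_le_ofReal (hstep s lam Pv hPv N k a b E hE)
          · simp only [indicator_of_notMem hE, add_zero]
            exact ENNReal.ofReal_le_ofReal (En_anti h8b lam Pv hPv N k E)
  have hsum : ∀ n, A n + ∑ k ∈ Finset.range n, ENNReal.ofReal (d * (c / s (N + k))) ≤ A 0 := by
    intro n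
    induction n with
    | zero => simp
    | succ n ih =>
      rw [Finset.sum_range_succ, add_comm (∑ k ∈ Finset.range n, _), ← add_assoc]
      exact (add_le_add (hrec n) le_rfl).trans ih
  have hA0 : A 0 ≤ ENNReal.ofReal (4 * (b - a)) := by
    calc A 0 ≤ ∫⁻ _ in Icc a b, ENNReal.ofReal 4 :=
          lintegral_mono fun E => ENNReal.ofReal_le_ofReal (En_le h8a lam Pv hPv N 0 E)
      _ = ENNReal.ofReal 4 * volume (Icc a b) := by
          rw [lintegral_const, Measure.restrict_apply_univ]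
      _ = _ := by
          rw [Real.volume_Icc, ENNReal.ofReal_mul (by norm_num)]
  have hfin : ∀ n, ∑ k ∈ Finset.range n, 1 / (s (k + N) : ℝ) ≤ 4 * (b - a) / (d * c) := by
    intro n
    have h1 : ∑ k ∈ Finset.range n, ENNReal.ofReal (d * (c / s (N + k))) ≤
        ENNReal.ofReal (4 * (b - a)) := (le_add_self.trans (hsum n)).trans hA0
    rw [← ENNReal.ofReal_sum_of_nonneg (fun k _ => by positivity),
      ENNReal.ofReal_le_ofReal_iff (by linarith)] at h1
    rw [le_div_iff₀ (by positivity), Finset.sum_mul]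
    refine le_trans (le_of_eq ?_) h1
    apply Finset.sum_congr rfl
    intro k _
    rw [add_comm k N]
    ring
  have h1 : Summable (fun k => 1 / (s (k + N) : ℝ)) :=
    summable_of_sum_range_le (fun k => by positivity) hfin
  exact (summable_nat_add_iff N).mp h1

theorem no_Bset (h6 : T6) (h7 : T7) (h8a : T8a) (h8b : T8b) (h9 : T9) (Pv : Measure ℝ)
    (hP : GoodLaw Pv) (hs : ∀ n, 0 < s n) (hns : ¬ Summable (fun n => 1 / (s n : ℝ)))
    (lam : ℝ) (hlam : 0 < lam) (a b : ℝ) (hab : a < b) (R : ℝ) (hR : 0 ≤ R) :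
    PP s Pv (Bset s lam a b R (1 / 16)) = 0 := by
  by_contra h
  obtain ⟨N, K, hK, hk⟩ := h6 s hs lam hlam Pv hP a b hab R hR h
  exact hns (total h7 h8a h8b h9 Pv hP hs lam hlam a b hab N K hK hk)

theorem final (h1 : T1) (h2a : T2a) (h2b : T2b) (h6 : T6) (h7 : T7) (h8a : T8a) (h8b : T8b)
    (h9 : T9) : Goal := by
  intro Pv hP s hs hns lam hlam
  have hall : ∀ᵐ v ∂(PP s Pv), ∀ (a b : ℚ) (R : ℕ), (a : ℝ) < b →
      v ∉ Bset s lam a b R (1 / 16) := by
    rw [ae_all_iff]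
    intro a
    rw [ae_all_iff]
    intro b
    rw [ae_all_iff]
    intro R
    by_cases hab : (a : ℝ) < b
    · have := no_Bset h6 h7 h8a h8b h9 Pv hP hs hns lam hlam a b hab R (Nat.cast_nonneg R)
      filter_upwards [measure_eq_zero_iff_ae_notMem.mp this] with v hv _
      exact hv
    · exact Eventually.of_forall fun v h => absurd h hab
  filter_upwards [hall] with v hv H hH ψ ν hν
  by_contra hsing
  have hsa := isSelfAdjoint_anderson hH
  obtain ⟨w, hw, hw0, hwc⟩ := h2a s hs lam v H hH ψ ν hν (h1 (L2 s) H hsa ψ ν hν) hsing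
  have hcm : ∀ n, Measurable (fun E => col s lam v E n) := fun n =>
    (col_meas lam n).comp measurable_prodMk_left
  obtain ⟨a, b, hab, R, hR⟩ := h2b w hw hw0 (fun n E => col s lam v E n) hcm
    (fun n E => by unfold col; positivity) hwc (1 / 16) (by norm_num)
  exact hv a b R hab hR

end Pool.Agent.H508R3.AT
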