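import Pool.Agent.H508R3.SC
import Pool.Agent.H695R3.AT.Op

set_option autoImplicit false

namespace Pool.Agent.H508R3.AT

open MeasureTheory Filter Topology Set Matrix
open Pool.Agent.H695R3.AT
open Pool.Agent.H508R3.SC (M2 ns)

/-- the space of potentials -/
abbrev Om (s : ℕ → ℕ) : Type := Vtx s → ℝ

/-- the law of the i.i.d. potential -/
noncomputable def PP (s : ℕ → ℕ) (Pv : Measure ℝ) : Measure (Om s) :=
  Measure.infinitePi fun _ : Vtx s => Pv

/-- the shell average of `1 / (E - λ v)` -/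
noncomputable def YY (s : ℕ → ℕ) (lam : ℝ) (v : Om s) (n : ℕ) (E : ℝ) : ℝ :=
  (∑ i : Fin (s n), (E - lam * v ⟨n, i⟩)⁻¹) / s n

/-- one step matrix with parameter `h` -/
def Mh (h : ℝ) : M2 := !![h, -1; 1, 0]

/-- transfer matrix across the shells `N, …, N + k - 1` -/
noncomputable def TT (s : ℕ → ℕ) (lam : ℝ) (v : Om s) (E : ℝ) (N : ℕ) : ℕ → M2
  | 0 => 1
  | k + 1 => Mh (YY s lam v (N + k) E)⁻¹ * TT s lam v E N k

/-- squared norm of the first column, `p_n ^ 2 + p_{n-1} ^ 2` -/
noncomputable def col (s : ℕ → ℕ) (lam : ℝ) (v : Om s) (E : ℝ) (n : ℕ) : ℝ :=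
  (TT s lam v E 0 n) 0 0 ^ 2 + (TT s lam v E 0 n) 1 0 ^ 2

/-- the potentials for which the first columns are bounded for most energies of `[a, b]` -/
def Bset (s : ℕ → ℕ) (lam a b R δ : ℝ) : Set (Om s) :=
  {v | ∀ n : ℕ, volume {E | E ∈ Icc a b ∧ R < col s lam v E n} ≤ ENNReal.ofReal (δ * (b - a))}

/-- take the shells before `N` from `g` and the others from `v` -/
def comb (s : ℕ → ℕ) (N : ℕ) (g v : Om s) : Om s := fun x => if x.1 < N then g x else v x

/-- the single site distributions that are allowed -/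
def GoodLaw (Pv : Measure ℝ) : Prop :=
  IsProbabilityMeasure Pv ∧ Pv (Icc (-1) 1)ᶜ = 0 ∧ ∀ c : ℝ, Pv {c} < 1

/-- the shear function -/
noncomputable def sq (T t : ℝ) : ℝ := (|t| / (T + |t|)) ^ 2

/-- `ν` is the spectral measure of `H` for the vector `ψ` -/
def IsSpec {X : Type} [NormedAddCommGroup X] [InnerProductSpace ℂ X] [CompleteSpace X]
    (H : X →L[ℂ] X) (ψ : X) (ν : Measure ℝ) : Prop :=
  IsFiniteMeasure ν ∧ ∀ f : ℝ → ℝ, Continuous f →
    Integrable f ν ∧ ((∫ x, f x ∂ν : ℝ) : ℂ) = inner ℂ ψ (cfc f H ψ)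

variable {s : ℕ → ℕ}

instance {Pv : Measure ℝ} [IsProbabilityMeasure Pv] : IsProbabilityMeasure (PP s Pv) := by
  unfold PP; infer_instance

lemma Mh_det (h : ℝ) : (Mh h).det = 1 := by
  simp [Mh, Matrix.det_fin_two_of]

lemma TT_det (lam : ℝ) (v : Om s) (E : ℝ) (N k : ℕ) : (TT s lam v E N k).det = 1 := by
  induction k with
  | zero => simp [TT]
  | succ k ih => rw [TT, Matrix.det_mul, Mh_det, ih, one_mul]

lemma TT_add (lam : ℝ) (v : Om s) (E : ℝ) (N k l : ℕ) :
    TT s lam v E N (k + l) = TT s lam v E (N + k) l * TT s lam v E N k := by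
  induction l with
  | zero => simp [TT]
  | succ l ih => rw [← Nat.add_assoc, TT, ih, TT, Matrix.mul_assoc, Nat.add_assoc]

lemma YY_congr (lam : ℝ) {v w : Om s} {n : ℕ} (h : ∀ i : Fin (s n), v ⟨n, i⟩ = w ⟨n, i⟩) (E : ℝ) :
    YY s lam v n E = YY s lam w n E := by
  unfold YY
  simp only [h]

lemma TT_congr (lam : ℝ) {v w : Om s} (E : ℝ) (N k : ℕ)
    (h : ∀ x : Vtx s, N ≤ x.1 → x.1 < N + k → v x = w x) :
    TT s lam v E N k = TT s lam w E N k := by
  induction k with
  | zero => rfl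
  | succ k ih =>
    rw [TT, TT, ih (fun x h1 h2 => h x h1 (by omega)),
      YY_congr lam (fun i => h ⟨N + k, i⟩ (by simp) (by simp)) E]

lemma YY_meas (lam : ℝ) (n : ℕ) : Measurable (fun p : Om s × ℝ => YY s lam p.1 n p.2) := by
  unfold YY
  fun_prop

lemma TT_meas (lam : ℝ) (N k : ℕ) (i j : Fin 2) :
    Measurable (fun p : Om s × ℝ => TT s lam p.1 p.2 N k i j) := by
  induction k generalizing i j with
  | zero => simp only [TT]; exact measurable_const
  | succ k ih =>
    have hY := YY_meas (s := s) lam (N + k)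
    simp only [TT, Matrix.mul_apply, Fin.sum_univ_two, Mh, Matrix.of_apply, Matrix.cons_val',
      Matrix.cons_val_fin_one]
    have h0 := ih 0 j
    have h1 := ih 1 j
    fin_cases i
    · simp
      fun_prop
    · simp
      fun_prop

lemma col_meas (lam : ℝ) (n : ℕ) : Measurable (fun p : Om s × ℝ => col s lam p.1 p.2 n) := by
  unfold col
  have h0 := TT_meas (s := s) lam 0 n 0 0
  have h1 := TT_meas (s := s) lam 0 n 1 0
  fun_prop

lemma Bset_meas (lam a b R δ : ℝ) : MeasurableSet (Bset s lam a b R δ) := by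
  unfold Bset
  rw [Set.ofPred_forall]
  refine MeasurableSet.iInter fun n => ?_
  have h1 : MeasurableSet {p : Om s × ℝ | p.2 ∈ Icc a b ∧ R < col s lam p.1 p.2 n} :=
    (measurable_snd measurableSet_Icc).inter (measurableSet_lt measurable_const (col_meas lam n))
  exact measurableSet_le (measurable_measure_prodMk_left h1) measurable_const

end Pool.Agent.H508R3.AT
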