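import Pool.Agent.H508R3.AT.T6a

set_option autoImplicit false

namespace Pool.Agent.H508R3.AT

open MeasureTheory Filter Topology Set Matrix
open Pool.Agent.H695R3.AT
open Pool.Agent.H508R3.SC (M2 ns)

lemma compl_le {s : ℕ → ℕ} {Pv : Measure ℝ} {N : ℕ} {g : Om s} {B : Set (Om s)} {c : ENNReal}
    (h : PP s Pv {v | comb s N g v ∉ B} ≤ c) : PP s Pv {v | comb s N g v ∈ B}ᶜ ≤ c :=
  (measure_mono (fun _ hv => hv)).trans h

lemma sec_bound' {s : ℕ → ℕ} (lam : ℝ) (g g' v : Om s) {a b : ℝ} (hab : a < b) (R : ℝ)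
    (N k K0 : ℕ) (hdet : ∀ᵐ E : ℝ, Dt s lam g g' N E ≠ 0)
    (hK0 : volume {E | E ∈ Icc a b ∧ (K0 : ℝ) < Ph s lam g g' N R E} ≤
      ENNReal.ofReal ((b - a) / 8))
    (h1 : comb s N g v ∈ Bset s lam a b R (1 / 16))
    (h2 : comb s N g' v ∈ Bset s lam a b R (1 / 16)) :
    ENNReal.ofReal ((b - a) / 2) ≤ volume (Prod.mk v ⁻¹'
      {p : Om s × ℝ | p.2 ∈ Icc a b ∧ ns (TT s lam p.1 p.2 N k) ≤ max (K0 : ℝ) 1}) :=
  (sec_bound lam g g' v hab R N k K0 hdet hK0 h1 h2).trans (measure_mono (fun _ hE => hE))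

theorem t6 (h4 : T4) (h5 : T5) : T6 := by
  intro s hs lam hlam Pv hP a b hab R hR hB
  have hPv := hP.1
  obtain ⟨N, g, g', hgg, hsum, h1, h2⟩ := h4 s hs Pv hP _ (Bset_meas lam a b R (1 / 16)) hB (1 / 8)
    (by norm_num)
  have hdet : ∀ᵐ E : ℝ, Dt s lam g g' (N + 1) E ≠ 0 := h5 s hs lam hlam.ne' N g g' hgg hsum
  obtain ⟨K0, hK0⟩ := exists_bound (Ph_meas lam g g' (N + 1) R) a b
    (ε := ENNReal.ofReal ((b - a) / 8)) (by rw [ENNReal.ofReal_pos]; linarith)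
  refine ⟨N + 1, max K0 1, by positivity, fun k => ?_⟩
  have hGP := half_le (PP s Pv) (Good_meas lam a b R g g' (N + 1)) (compl_le h1) (compl_le h2)
  refine fubini_low (PP s Pv) (nsset_meas' lam (N + 1) k a b (max K0 1)) hGP (by linarith) ?_
  intro v hv
  exact sec_bound' lam g g' v hab R (N + 1) k K0 hdet hK0 hv.1 hv.2

end Pool.Agent.H508R3.AT
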