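import Pool.Agent.H508R3.AT.Stmts

set_option autoImplicit false

namespace Pool.Agent.H508R3.AT

open MeasureTheory Filter Topology Set Matrix
open Pool.Agent.H695R3.AT
open Pool.Agent.H508R3.SC (M2 ns)

variable {s : ℕ → ℕ}

lemma mat_bound (M : M2) (a0 a1 c0 c1 R : ℝ) (hD : a0 * c1 - a1 * c0 ≠ 0)
    (h1 : (M 0 0 * a0 + M 0 1 * a1) ^ 2 + (M 1 0 * a0 + M 1 1 * a1) ^ 2 ≤ R)
    (h2 : (M 0 0 * c0 + M 0 1 * c1) ^ 2 + (M 1 0 * c0 + M 1 1 * c1) ^ 2 ≤ R) :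
    ns M ≤ 2 * R * (a0 ^ 2 + a1 ^ 2 + c0 ^ 2 + c1 ^ 2) / (a0 * c1 - a1 * c0) ^ 2 := by
  set D := a0 * c1 - a1 * c0 with hDdef
  have hD2 : 0 < D ^ 2 := by positivity
  rw [le_div_iff₀ hD2]
  set b0 := M 0 0 * a0 + M 0 1 * a1 with hb0
  set b1 := M 1 0 * a0 + M 1 1 * a1 with hb1
  set d0 := M 0 0 * c0 + M 0 1 * c1 with hd0
  set d1 := M 1 0 * c0 + M 1 1 * c1 with hd1
  have e1 : M 0 0 * D = b0 * c1 - d0 * a1 := by rw [hb0, hd0, hDdef]; ring
  have e2 : M 0 1 * D = d0 * a0 - b0 * c0 := by rw [hb0, hd0, hDdef]; ring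
  have e3 : M 1 0 * D = b1 * c1 - d1 * a1 := by rw [hb1, hd1, hDdef]; ring
  have e4 : M 1 1 * D = d1 * a0 - b1 * c0 := by rw [hb1, hd1, hDdef]; ring
  have e5 : ns M * D ^ 2 = (b0 * c1 - d0 * a1) ^ 2 + (d0 * a0 - b0 * c0) ^ 2 +
      (b1 * c1 - d1 * a1) ^ 2 + (d1 * a0 - b1 * c0) ^ 2 := by
    rw [← e1, ← e2, ← e3, ← e4]
    unfold ns
    ring
  rw [e5]
  have f1 : (b0 * c1 - d0 * a1) ^ 2 ≤ (b0 ^ 2 + d0 ^ 2) * (c1 ^ 2 + a1 ^ 2) := by
    nlinarith [sq_nonneg (b0 * a1 + d0 * c1)]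
  have f2 : (d0 * a0 - b0 * c0) ^ 2 ≤ (b0 ^ 2 + d0 ^ 2) * (c0 ^ 2 + a0 ^ 2) := by
    nlinarith [sq_nonneg (d0 * c0 + b0 * a0)]
  have f3 : (b1 * c1 - d1 * a1) ^ 2 ≤ (b1 ^ 2 + d1 ^ 2) * (c1 ^ 2 + a1 ^ 2) := by
    nlinarith [sq_nonneg (b1 * a1 + d1 * c1)]
  have f4 : (d1 * a0 - b1 * c0) ^ 2 ≤ (b1 ^ 2 + d1 ^ 2) * (c0 ^ 2 + a0 ^ 2) := by
    nlinarith [sq_nonneg (d1 * c0 + b1 * a0)]
  have hS : 0 ≤ a0 ^ 2 + a1 ^ 2 + c0 ^ 2 + c1 ^ 2 := by positivity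
  have f5 : (b0 ^ 2 + b1 ^ 2 + (d0 ^ 2 + d1 ^ 2)) * (a0 ^ 2 + a1 ^ 2 + c0 ^ 2 + c1 ^ 2) ≤
      (R + R) * (a0 ^ 2 + a1 ^ 2 + c0 ^ 2 + c1 ^ 2) :=
    mul_le_mul_of_nonneg_right (add_le_add h1 h2) hS
  linarith [f1, f2, f3, f4, f5]

/-- a measurable real function is bounded off a small set -/
lemma exists_bound {Φ : ℝ → ℝ} (hΦ : Measurable Φ) (a b : ℝ) {ε : ENNReal} (hε : 0 < ε) :
    ∃ K : ℕ, volume {E | E ∈ Icc a b ∧ (K : ℝ) < Φ E} ≤ ε := by
  have hanti : Antitone (fun K : ℕ => {E | E ∈ Icc a b ∧ (K : ℝ) < Φ E}) := by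
    intro m n hmn E hE
    exact ⟨hE.1, lt_of_le_of_lt (by exact_mod_cast hmn) hE.2⟩
  have hmeas : ∀ K : ℕ, MeasurableSet {E | E ∈ Icc a b ∧ (K : ℝ) < Φ E} := fun K =>
    measurableSet_Icc.inter (measurableSet_lt measurable_const hΦ)
  have hfin : volume {E | E ∈ Icc a b ∧ ((0 : ℕ) : ℝ) < Φ E} ≠ ⊤ := by
    refine ne_top_of_le_ne_top ?_ (measure_mono (fun E hE => hE.1) : _ ≤ volume (Icc a b))
    rw [Real.volume_Icc]
    exact ENNReal.ofReal_ne_top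
  have h := tendsto_measure_iInter_atTop (μ := (volume : Measure ℝ))
    (fun K => (hmeas K).nullMeasurableSet) hanti ⟨0, hfin⟩
  have hemp : (⋂ K : ℕ, {E | E ∈ Icc a b ∧ (K : ℝ) < Φ E}) = ∅ := by
    ext E
    simp only [mem_iInter, mem_empty_iff_false, iff_false, not_forall]
    obtain ⟨n, hn⟩ := exists_nat_gt (Φ E)
    exact ⟨n, fun h => absurd h.2 (not_lt.mpr hn.le)⟩
  rw [hemp, measure_empty] at h
  obtain ⟨K, hK⟩ := (h.eventually (gt_mem_nhds hε)).exists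
  exact ⟨K, hK.le⟩

lemma comb_meas (N : ℕ) (g : Om s) : Measurable (fun v : Om s => comb s N g v) := by
  unfold comb
  refine measurable_pi_lambda _ fun x => ?_
  by_cases h : x.1 < N
  · simp only [h, if_true]; exact measurable_const
  · simp only [h, if_false]; exact measurable_pi_apply x

lemma col_comb (lam : ℝ) (g v : Om s) (E : ℝ) (N k : ℕ) :
    col s lam (comb s N g v) E (N + k) =
      ((TT s lam v E N k) 0 0 * (TT s lam g E 0 N) 0 0 +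
        (TT s lam v E N k) 0 1 * (TT s lam g E 0 N) 1 0) ^ 2 +
      ((TT s lam v E N k) 1 0 * (TT s lam g E 0 N) 0 0 +
        (TT s lam v E N k) 1 1 * (TT s lam g E 0 N) 1 0) ^ 2 := by
  unfold col
  rw [TT_add, Nat.zero_add]
  rw [TT_congr lam (v := comb s N g v) (w := v) E N k (fun x h1 _ => by
    unfold comb; rw [if_neg (by omega)]),
    TT_congr lam (v := comb s N g v) (w := g) E 0 N (fun x _ h2 => by
    unfold comb; rw [if_pos (by omega)])]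
  simp only [Matrix.mul_apply, Fin.sum_univ_two]

lemma TT_meas_E (lam : ℝ) (v : Om s) (N k : ℕ) (i j : Fin 2) :
    Measurable (fun E => TT s lam v E N k i j) :=
  (TT_meas lam N k i j).comp measurable_prodMk_left

lemma half_le {Ω : Type} [MeasurableSpace Ω] (μ : Measure Ω) [IsProbabilityMeasure μ]
    {A A' : Set Ω} (hm : MeasurableSet (A ∩ A')) (h1 : μ Aᶜ ≤ ENNReal.ofReal (1 / 8))
    (h2 : μ A'ᶜ ≤ ENNReal.ofReal (1 / 8)) : ENNReal.ofReal (1 / 2) ≤ μ (A ∩ A') := by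
  have h3 : μ (A ∩ A')ᶜ ≤ ENNReal.ofReal (1 / 8) + ENNReal.ofReal (1 / 8) := by
    rw [compl_inter]
    exact (measure_union_le _ _).trans (add_le_add h1 h2)
  have h4 : μ (A ∩ A') + μ (A ∩ A')ᶜ = 1 := by
    rw [measure_add_measure_compl hm, measure_univ]
  by_contra hlt
  push Not at hlt
  have h5 : (1 : ENNReal) < 1 := by
    calc (1 : ENNReal) = μ (A ∩ A') + μ (A ∩ A')ᶜ := h4.symm
      _ < ENNReal.ofReal (1 / 2) + (ENNReal.ofReal (1 / 8) + ENNReal.ofReal (1 / 8)) :=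
          ENNReal.add_lt_add_of_lt_of_le (measure_ne_top _ _) hlt h3
      _ ≤ 1 := by
          rw [← ENNReal.ofReal_add (by norm_num) (by norm_num),
            ← ENNReal.ofReal_add (by norm_num) (by norm_num), ← ENNReal.ofReal_one]
          exact ENNReal.ofReal_le_ofReal (by norm_num)
  exact lt_irrefl _ h5

lemma vol_half {S B1 B2 B3 Z : Set ℝ} {a b : ℝ} (hab : a < b)
    (hcov : Icc a b ⊆ S ∪ (B1 ∪ (B2 ∪ (B3 ∪ Z))))
    (h1 : volume B1 ≤ ENNReal.ofReal (1 / 16 * (b - a)))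
    (h2 : volume B2 ≤ ENNReal.ofReal (1 / 16 * (b - a)))
    (h3 : volume B3 ≤ ENNReal.ofReal ((b - a) / 8)) (h4 : volume Z = 0) :
    ENNReal.ofReal ((b - a) / 2) ≤ volume S := by
  have h5 : volume (Icc a b) ≤ volume S + (ENNReal.ofReal (1 / 16 * (b - a)) +
      (ENNReal.ofReal (1 / 16 * (b - a)) + (ENNReal.ofReal ((b - a) / 8) + 0))) := by
    refine (measure_mono hcov).trans ((measure_union_le _ _).trans (add_le_add le_rfl ?_))
    refine (measure_union_le _ _).trans (add_le_add h1 ?_)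
    refine (measure_union_le _ _).trans (add_le_add h2 ?_)
    exact (measure_union_le _ _).trans (add_le_add h3 h4.le)
  have hba : 0 < b - a := sub_pos.mpr hab
  have h6 : ENNReal.ofReal (1 / 16 * (b - a)) +
      (ENNReal.ofReal (1 / 16 * (b - a)) + (ENNReal.ofReal ((b - a) / 8) + 0)) =
      ENNReal.ofReal ((b - a) / 4) := by
    rw [add_zero, ← ENNReal.ofReal_add (by positivity) (by positivity),
      ← ENNReal.ofReal_add (by positivity) (by positivity)]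
    congr 1
    ring
  rw [Real.volume_Icc, h6] at h5
  by_contra hlt
  push Not at hlt
  have h7 : ENNReal.ofReal (b - a) < ENNReal.ofReal (b - a) := by
    calc ENNReal.ofReal (b - a) ≤ volume S + ENNReal.ofReal ((b - a) / 4) := h5
      _ < ENNReal.ofReal ((b - a) / 2) + ENNReal.ofReal ((b - a) / 4) :=
          ENNReal.add_lt_add_of_lt_of_le ENNReal.ofReal_ne_top hlt le_rfl
      _ ≤ ENNReal.ofReal (b - a) := by
          rw [← ENNReal.ofReal_add (by positivity) (by positivity)]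
          exact ENNReal.ofReal_le_ofReal (by linarith)
  exact lt_irrefl _ h7

/-- determinant of the two columns -/
noncomputable def Dt (s : ℕ → ℕ) (lam : ℝ) (g g' : Om s) (N : ℕ) (E : ℝ) : ℝ :=
  (TT s lam g E 0 N) 0 0 * (TT s lam g' E 0 N) 1 0 -
    (TT s lam g E 0 N) 1 0 * (TT s lam g' E 0 N) 0 0

/-- the bound -/
noncomputable def Ph (s : ℕ → ℕ) (lam : ℝ) (g g' : Om s) (N : ℕ) (R E : ℝ) : ℝ :=
  2 * R * ((TT s lam g E 0 N) 0 0 ^ 2 + (TT s lam g E 0 N) 1 0 ^ 2 +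
    (TT s lam g' E 0 N) 0 0 ^ 2 + (TT s lam g' E 0 N) 1 0 ^ 2) / (Dt s lam g g' N E) ^ 2

lemma Ph_meas (lam : ℝ) (g g' : Om s) (N : ℕ) (R : ℝ) : Measurable (Ph s lam g g' N R) := by
  have h1 := TT_meas_E lam g 0 N 0 0
  have h2 := TT_meas_E lam g 0 N 1 0
  have h3 := TT_meas_E lam g' 0 N 0 0
  have h4 := TT_meas_E lam g' 0 N 1 0
  unfold Ph Dt
  exact ((((((h1.pow_const 2).add (h2.pow_const 2)).add (h3.pow_const 2)).add
    (h4.pow_const 2)).const_mul (2 * R)).div (((h1.mul h4).sub (h2.mul h3)).pow_const 2))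

lemma sec_bound (lam : ℝ) (g g' v : Om s) {a b : ℝ} (hab : a < b) (R : ℝ) (N k K0 : ℕ)
    (hdet : ∀ᵐ E : ℝ, Dt s lam g g' N E ≠ 0)
    (hK0 : volume {E | E ∈ Icc a b ∧ (K0 : ℝ) < Ph s lam g g' N R E} ≤
      ENNReal.ofReal ((b - a) / 8))
    (h1 : comb s N g v ∈ Bset s lam a b R (1 / 16))
    (h2 : comb s N g' v ∈ Bset s lam a b R (1 / 16)) :
    ENNReal.ofReal ((b - a) / 2) ≤
      volume {E | E ∈ Icc a b ∧ ns (TT s lam v E N k) ≤ max (K0 : ℝ) 1} := by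
  have u1 : volume {E | E ∈ Icc a b ∧ R < col s lam (comb s N g v) E (N + k)} ≤
      ENNReal.ofReal (1 / 16 * (b - a)) := h1 (N + k)
  have u2 : volume {E | E ∈ Icc a b ∧ R < col s lam (comb s N g' v) E (N + k)} ≤
      ENNReal.ofReal (1 / 16 * (b - a)) := h2 (N + k)
  have u3 : volume {E : ℝ | ¬ Dt s lam g g' N E ≠ 0} = 0 := ae_iff.mp hdet
  refine vol_half hab ?_ u1 u2 hK0 u3
  intro E hE
  by_cases w1 : R < col s lam (comb s N g v) E (N + k)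
  · exact Or.inr (Or.inl ⟨hE, w1⟩)
  by_cases w2 : R < col s lam (comb s N g' v) E (N + k)
  · exact Or.inr (Or.inr (Or.inl ⟨hE, w2⟩))
  by_cases w3 : (K0 : ℝ) < Ph s lam g g' N R E
  · exact Or.inr (Or.inr (Or.inr (Or.inl ⟨hE, w3⟩)))
  by_cases w4 : Dt s lam g g' N E ≠ 0
  swap
  · exact Or.inr (Or.inr (Or.inr (Or.inr w4)))
  left
  refine ⟨hE, ?_⟩
  have w1' := not_lt.mp w1
  have w2' := not_lt.mp w2
  rw [col_comb] at w1' w2'
  have h5 := mat_bound (TT s lam v E N k) _ _ _ _ R w4 w1' w2'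
  exact (h5.trans (not_lt.mp w3)).trans (le_max_left _ _)

lemma nsset_meas' (lam : ℝ) (N k : ℕ) (a b K : ℝ) :
    MeasurableSet {p : Om s × ℝ | p.2 ∈ Icc a b ∧ ns (TT s lam p.1 p.2 N k) ≤ K} := by
  have h1 : Measurable (fun p : Om s × ℝ => ns (TT s lam p.1 p.2 N k)) := by
    unfold ns
    have h00 := TT_meas (s := s) lam N k 0 0
    have h01 := TT_meas (s := s) lam N k 0 1
    have h10 := TT_meas (s := s) lam N k 1 0
    have h11 := TT_meas (s := s) lam N k 1 1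
    fun_prop
  exact (measurable_snd measurableSet_Icc).inter (measurableSet_le h1 measurable_const)

lemma fubini_low {Ω : Type} [MeasurableSpace Ω] (μ : Measure Ω) [IsProbabilityMeasure μ]
    {S : Set (Ω × ℝ)} (hS : MeasurableSet S) {Good : Set Ω}
    (hP : ENNReal.ofReal (1 / 2) ≤ μ Good) {c : ℝ} (hc : 0 ≤ c)
    (hsec : ∀ v ∈ Good, ENNReal.ofReal (c / 2) ≤ volume (Prod.mk v ⁻¹' S)) :
    ENNReal.ofReal (c / 4) ≤ (μ.prod volume) S := by
  rw [Measure.prod_apply hS]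
  calc ENNReal.ofReal (c / 4)
      = ENNReal.ofReal (c / 2) * ENNReal.ofReal (1 / 2) := by
        rw [← ENNReal.ofReal_mul (by linarith)]
        congr 1
        ring
    _ ≤ ENNReal.ofReal (c / 2) * μ Good := by gcongr
    _ = ∫⁻ _ in Good, ENNReal.ofReal (c / 2) ∂μ := by
        rw [lintegral_const, Measure.restrict_apply_univ]
    _ ≤ ∫⁻ v in Good, volume (Prod.mk v ⁻¹' S) ∂μ :=
        setLIntegral_mono (measurable_measure_prodMk_left hS) hsec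
    _ ≤ ∫⁻ v, volume (Prod.mk v ⁻¹' S) ∂μ := setLIntegral_le_lintegral _ _

lemma Good_meas (lam a b R : ℝ) (g g' : Om s) (N : ℕ) : MeasurableSet
    ({v | comb s N g v ∈ Bset s lam a b R (1 / 16)} ∩
      {v | comb s N g' v ∈ Bset s lam a b R (1 / 16)}) :=
  (comb_meas N g (Bset_meas lam a b R (1 / 16))).inter
    (comb_meas N g' (Bset_meas lam a b R (1 / 16)))


end Pool.Agent.H508R3.AT
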